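import Mathlib

set_option autoImplicit false

/-!
# Continued fractions with bounded partial quotients: the recursion for the continuants
-/

namespace Pool.Agent.W2helper40.DZ

open Filter Topology MeasureTheory

/-- numerator and denominator of `[0; a_1, …, a_n + P / Q]`-/
def F {R : Type} [Semiring R] (P Q : R) : List ℕ → R × R
  | [] => (P, Q)
  | a :: w => ((F P Q w).2, (a : R) * (F P Q w).2 + (F P Q w).1)

theorem F_append {R : Type} [Semiring R] (P Q : R) (u w : List ℕ) :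
    F P Q (u ++ w) = F (F P Q w).1 (F P Q w).2 u := by
  induction u with
  | nil => rfl
  | cons a u ih => rw [List.cons_append, F, F, ih]

theorem F_lin {R : Type} [CommSemiring R] (P Q : R) (w : List ℕ) :
    (F P Q w).1 = P * (F (1:R) 0 w).1 + Q * (F (0:R) 1 w).1 ∧
    (F P Q w).2 = P * (F (1:R) 0 w).2 + Q * (F (0:R) 1 w).2 := by
  induction w with
  | nil => simp [F]
  | cons a w ih =>
    obtain ⟨h1, h2⟩ := ih
    constructor
    · simp only [F]; exact h2
    · simp only [F]; rw [h1, h2]; ring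

theorem F_cast {R : Type} [CommSemiring R] (P Q : ℕ) (w : List ℕ) :
    (F (P : R) (Q : R) w).1 = ((F P Q w).1 : R) ∧ (F (P : R) (Q : R) w).2 = ((F P Q w).2 : R) := by
  induction w with
  | nil => simp [F]
  | cons a w ih =>
    obtain ⟨h1, h2⟩ := ih
    constructor
    · simp only [F]; exact h2
    · simp only [F]; rw [h1, h2]; push_cast; ring

/-- numerator and denominator of `[0; w]` -/
def p (w : List ℕ) : ℕ := (F 0 1 w).1
def q (w : List ℕ) : ℕ := (F 0 1 w).2
/-- numerator and denominator without the last letter -/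
def p' (w : List ℕ) : ℕ := (F 1 0 w).1
def q' (w : List ℕ) : ℕ := (F 1 0 w).2

theorem p_cons (a : ℕ) (w : List ℕ) : p (a :: w) = q w := rfl
theorem q_cons (a : ℕ) (w : List ℕ) : q (a :: w) = a * q w + p w := by simp [q, p, F]
theorem p'_cons (a : ℕ) (w : List ℕ) : p' (a :: w) = q' w := rfl
theorem q'_cons (a : ℕ) (w : List ℕ) : q' (a :: w) = a * q' w + p' w := by simp [q', p', F]
theorem p_nil : p [] = 0 := rfl
theorem q_nil : q [] = 1 := rfl
theorem p'_nil : p' [] = 1 := rfl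
theorem q'_nil : q' [] = 0 := rfl

theorem F_real (P Q : ℝ) (w : List ℕ) :
    (F P Q w).1 = P * p' w + Q * p w ∧ (F P Q w).2 = P * q' w + Q * q w := by
  have h := F_lin P Q w
  have h0 := F_cast (R := ℝ) 0 1 w
  have h1 := F_cast (R := ℝ) 1 0 w
  simp only [Nat.cast_zero, Nat.cast_one] at h0 h1
  rw [h.1, h.2, h0.1, h0.2, h1.1, h1.2]
  exact ⟨rfl, rfl⟩

theorem q_append (u w : List ℕ) : q (u ++ w) = p w * q' u + q w * q u := by
  unfold q p q'
  rw [F_append, (F_lin _ _ u).2]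

theorem p_append (u w : List ℕ) : p (u ++ w) = p w * p' u + q w * p u := by
  unfold q p p'
  rw [F_append, (F_lin _ _ u).1]

/-- admissible words -/
def Ok (z : ℕ) (w : List ℕ) : Prop := ∀ a ∈ w, 1 ≤ a ∧ a ≤ z

theorem det (w : List ℕ) : |(q w : ℤ) * p' w - p w * q' w| = 1 := by
  induction w with
  | nil => simp [q_nil, p'_nil, p_nil, q'_nil]
  | cons a w ih =>
    rw [q_cons, p'_cons, p_cons, q'_cons]
    push_cast
    have : ((a:ℤ) * q w + p w) * q' w - q w * (a * q' w + p' w) =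
      -((q w : ℤ) * p' w - p w * q' w) := by ring
    rw [this, abs_neg, ih]

theorem coprime (w : List ℕ) : Nat.Coprime (p w) (q w) := by
  induction w with
  | nil => simp [p_nil, q_nil]
  | cons a w ih =>
    rw [p_cons, q_cons, Nat.coprime_mul_right_add_right]
    exact ih.symm

theorem bounds {z : ℕ} {w : List ℕ} (h : Ok z w) :
    q' w ≤ q w ∧ q' w + p' w ≤ q w + p w ∧ p w ≤ q w ∧ w.length + 1 ≤ p w + q w ∧ 1 ≤ q w := by
  induction w with
  | nil => simp [p_nil, q_nil, p'_nil, q'_nil]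
  | cons a w ih =>
    have ha : 1 ≤ a := (h a (by simp)).1
    obtain ⟨h1, h2, h3, h4, h5⟩ := ih fun b hb => h b (by simp [hb])
    rw [p_cons, q_cons, p'_cons, q'_cons, List.length_cons]
    obtain ⟨c, rfl⟩ := Nat.exists_eq_add_of_le' ha
    have e1 : (c + 1) * q w = c * q w + q w := by ring
    have e2 : (c + 1) * q' w = c * q' w + q' w := by ring
    have e3 : c * q' w ≤ c * q w := Nat.mul_le_mul_left c h1
    have e4 : 0 ≤ c * q w := Nat.zero_le _
    rw [e1, e2]
    refine ⟨?_, ?_, ?_, ?_, ?_⟩ <;> omega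

theorem q_snoc (a : ℕ) (w : List ℕ) : q (w ++ [a]) = q' w + a * q w := by
  rw [q_append]
  have h1 : p [a] = 1 := rfl
  have h2 : q [a] = a := by rw [q_cons, q_nil, p_nil]; ring
  rw [h1, h2, one_mul]

theorem q_snoc_le {z a : ℕ} {w : List ℕ} (h : Ok z w) (ha : a ≤ z) :
    q (w ++ [a]) ≤ (z + 1) * q w := by
  rw [q_snoc]
  have h1 := (bounds h).1
  have h2 : a * q w ≤ z * q w := Nat.mul_le_mul_right _ ha
  have e : (z + 1) * q w = z * q w + q w := by ring
  omega

/-! ### Infinite continued fractions -/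

noncomputable def gauss (x : ℝ) : ℝ := Int.fract x⁻¹

/-- real numbers with partial quotients at most `z` -/
def E (z : ℕ) : Set ℝ :=
  {x | Irrational x ∧ 0 < x ∧ x < 1 ∧ ∀ n : ℕ, ⌊(gauss^[n] x)⁻¹⌋ ≤ (z : ℤ)}

noncomputable def digit (x : ℝ) (n : ℕ) : ℕ := ⌊(gauss^[n] x)⁻¹⌋₊

noncomputable def W (x : ℝ) : ℕ → List ℕ
  | 0 => []
  | n + 1 => W x n ++ [digit x n]

theorem gauss_iter {x : ℝ} (hx : Irrational x) (h0 : 0 < x) (h1 : x < 1) (n : ℕ) :
    Irrational (gauss^[n] x) ∧ 0 < gauss^[n] x ∧ gauss^[n] x < 1 := by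
  induction n with
  | zero => exact ⟨hx, h0, h1⟩
  | succ n ih =>
    rw [Function.iterate_succ_apply']
    obtain ⟨g1, g2, g3⟩ := ih
    have hirr : Irrational (gauss (gauss^[n] x)) := by
      have : Irrational (gauss^[n] x)⁻¹ := g1.inv
      exact this.sub_intCast _
    refine ⟨hirr, ?_, Int.fract_lt_one _⟩
    exact lt_of_le_of_ne (Int.fract_nonneg _) fun h => hirr.ne_zero h.symm

theorem digit_spec {z : ℕ} {x : ℝ} (hx : x ∈ E z) (n : ℕ) :
    1 ≤ digit x n ∧ digit x n ≤ z ∧ (digit x n : ℝ) + gauss^[n + 1] x = (gauss^[n] x)⁻¹ := by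
  obtain ⟨hx0, hx1, hx2, hx3⟩ := hx
  obtain ⟨g1, g2, g3⟩ := gauss_iter hx0 hx1 hx2 n
  have h1 : 1 ≤ (gauss^[n] x)⁻¹ := (one_le_inv₀ g2).2 g3.le
  have hf : ((digit x n : ℕ) : ℤ) = ⌊(gauss^[n] x)⁻¹⌋ := by
    unfold digit
    exact Int.natCast_floor_eq_floor (by linarith)
  refine ⟨?_, ?_, ?_⟩
  · exact (Nat.one_le_floor_iff _).2 h1
  · have := hx3 n
    rw [← hf] at this
    exact_mod_cast this
  · rw [Function.iterate_succ_apply']
    have h2 : ((digit x n : ℕ) : ℝ) = ((⌊(gauss^[n] x)⁻¹⌋ : ℤ) : ℝ) := by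
      rw [← hf]; simp
    rw [h2]
    exact Int.floor_add_fract _

theorem W_ok {z : ℕ} {x : ℝ} (hx : x ∈ E z) (n : ℕ) : Ok z (W x n) := by
  induction n with
  | zero => intro a ha; simp [W] at ha
  | succ n ih =>
    intro a ha
    rw [W, List.mem_append, List.mem_singleton] at ha
    rcases ha with ha | rfl
    · exact ih a ha
    · exact ⟨(digit_spec hx n).1, (digit_spec hx n).2.1⟩

theorem W_length (x : ℝ) (n : ℕ) : (W x n).length = n := by
  induction n with
  | zero => rfl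
  | succ n ih => rw [W, List.length_append, ih]; rfl

theorem expand {z : ℕ} {x : ℝ} (hx : x ∈ E z) (n : ℕ) :
    x * ((gauss^[n] x) * q' (W x n) + q (W x n)) = (gauss^[n] x) * p' (W x n) + p (W x n) := by
  suffices h : x * (F (gauss^[n] x) 1 (W x n)).2 = (F (gauss^[n] x) 1 (W x n)).1 by
    have h1 := F_real (gauss^[n] x) 1 (W x n)
    rw [h1.1, h1.2, one_mul, one_mul] at h
    exact h
  induction n with
  | zero => simp [W, F]
  | succ n ih =>
    obtain ⟨g1, g2, g3⟩ := gauss_iter hx.1 hx.2.1 hx.2.2.1 n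
    have h1 := F_real (gauss^[n] x) 1 (W x n)
    rw [h1.1, h1.2] at ih
    rw [W, F_append]
    have h2 : (F (gauss^[n + 1] x) (1:ℝ) [digit x n]).1 = 1 := rfl
    have h3 : (F (gauss^[n + 1] x) (1:ℝ) [digit x n]).2 = (gauss^[n] x)⁻¹ := by
      have : (F (gauss^[n + 1] x) (1:ℝ) [digit x n]).2 =
        (digit x n : ℝ) * 1 + gauss^[n + 1] x := rfl
      rw [this, mul_one]
      exact (digit_spec hx n).2.2
    rw [h2, h3, (F_real _ _ _).1, (F_real _ _ _).2]
    have h4 : gauss^[n] x ≠ 0 := g2.ne'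
    field_simp
    linarith

theorem approx {z : ℕ} {x : ℝ} (hx : x ∈ E z) (n : ℕ) :
    |x - (p (W x n) : ℝ) / q (W x n)| ≤ 1 / (q (W x n) : ℝ) ^ 2 := by
  obtain ⟨g1, g2, g3⟩ := gauss_iter hx.1 hx.2.1 hx.2.2.1 n
  have hq : (1:ℝ) ≤ q (W x n) := by exact_mod_cast (bounds (W_ok hx n)).2.2.2.2
  have hd : |(q (W x n) : ℝ) * p' (W x n) - p (W x n) * q' (W x n)| = 1 := by
    exact_mod_cast det (W x n)
  have he := expand hx n
  set t := gauss^[n] x
  set Q : ℝ := ((q (W x n) : ℕ) : ℝ)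
  set P : ℝ := ((p (W x n) : ℕ) : ℝ)
  set Q' : ℝ := ((q' (W x n) : ℕ) : ℝ) with hQ'
  set P' : ℝ := ((p' (W x n) : ℕ) : ℝ)
  have hQ'0 : 0 ≤ Q' := by rw [hQ']; positivity
  have hQ0 : 0 < Q := by linarith
  have hS : 0 < t * Q' + Q := by positivity
  have h1 : (x - P / Q) * (Q * (t * Q' + Q)) = t * (Q * P' - P * Q') := by
    have : (x - P / Q) * (Q * (t * Q' + Q)) = Q * (x * (t * Q' + Q)) - P * (t * Q' + Q) := by
      field_simp
    rw [this, he]; ring
  have h2 : |x - P / Q| * (Q * (t * Q' + Q)) = t := by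
    have := congrArg abs h1
    rw [abs_mul (x - P / Q), abs_mul t, hd, mul_one, abs_of_pos (mul_pos hQ0 hS),
      abs_of_pos g2] at this
    exact this
  rw [le_div_iff₀ (by positivity)]
  have h3 : Q ^ 2 ≤ Q * (t * Q' + Q) := by
    have : 0 ≤ Q * (t * Q') := by positivity
    nlinarith
  calc |x - P / Q| * Q ^ 2 ≤ |x - P / Q| * (Q * (t * Q' + Q)) :=
        mul_le_mul_of_nonneg_left h3 (abs_nonneg _)
    _ = t := h2
    _ ≤ 1 := g3.le

/-- every `x ∈ E z` has a convergent with denominator in `(Y, (z+1) Y]` -/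
theorem exists_conv {z : ℕ} {x : ℝ} (hx : x ∈ E z) {Y : ℕ} (hY : 1 ≤ Y) :
    ∃ w, Ok z w ∧ Y < q w ∧ q w ≤ (z + 1) * Y ∧ |x - (p w : ℝ) / q w| ≤ 1 / (q w : ℝ) ^ 2 := by
  have hex : ∃ n, Y < q (W x n) := by
    refine ⟨2 * Y, ?_⟩
    have h := bounds (W_ok hx (2 * Y))
    have hl := W_length x (2 * Y)
    have h4 := h.2.2.2.1
    rw [hl] at h4
    have h3 := h.2.2.1
    omega
  classical
  let n := Nat.find hex
  have hn : Y < q (W x n) := Nat.find_spec hex
  have hn0 : n ≠ 0 := by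
    intro h
    have : Y < q (W x 0) := by rw [← h]; exact hn
    rw [W, q_nil] at this
    omega
  obtain ⟨m, hm⟩ := Nat.exists_eq_succ_of_ne_zero hn0
  have hm' : q (W x m) ≤ Y := by
    have := Nat.find_min hex (m := m) (by show m < n; omega)
    omega
  refine ⟨W x n, W_ok hx n, hn, ?_, approx hx n⟩
  rw [hm, W]
  exact (q_snoc_le (W_ok hx m) (digit_spec hx m).2.1).trans (Nat.mul_le_mul_left _ hm')

end Pool.Agent.W2helper40.DZ
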