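import Pool.Agent.W2helper40.DZ.Basic

set_option autoImplicit false

/-!
# Many pairs (numerator, denominator) of size `Y`
-/

namespace Pool.Agent.W2helper40.DZ

open Filter Topology MeasureTheory Measure

/-- the pairs (numerator, denominator) with denominator in `(Y, (z+1) Y]` -/
def Pr (z Y : ℕ) : Set (ℕ × ℕ) :=
  {c | ∃ w, Ok z w ∧ Y < q w ∧ q w ≤ (z + 1) * Y ∧ c = (p w, q w)}

theorem Pr_finite (z Y : ℕ) : (Pr z Y).Finite := by
  apply ((Set.finite_Iic ((z + 1) * Y)).prod (Set.finite_Iic ((z + 1) * Y))).subset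
  rintro _ ⟨w, h1, h2, h3, rfl⟩
  exact ⟨(bounds h1).2.2.1.trans h3, h3⟩

theorem many {z : ℕ} {s : ℝ} (hs : 0 < s) (hd : ENNReal.ofReal s < dimH (E z)) (C : ℝ) :
    ∀ᶠ Y : ℕ in atTop, C * (Y : ℝ) ^ (2 * s) ≤ ((Pr z Y).ncard : ℝ) := by
  have htop : μH[s] (E z) = ⊤ := by
    have := hausdorffMeasure_of_lt_dimH (s := E z) (d := s.toNNReal) hd
    rwa [Real.coe_toNNReal _ hs.le] at this
  have hr : Tendsto (fun Y : ℕ => ENNReal.ofReal (2 / (Y : ℝ) ^ 2)) atTop (𝓝 0) := by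
    rw [← ENNReal.ofReal_zero]
    refine ENNReal.tendsto_ofReal ?_
    have h1 : Tendsto (fun Y : ℕ => (Y : ℝ) ^ 2) atTop atTop :=
      (tendsto_pow_atTop (two_ne_zero)).comp tendsto_natCast_atTop_atTop
    exact h1.const_div_atTop 2
  have hsum := hausdorffMeasure_le_liminf_sum (β := ℕ)
    (ι := fun Y => {x // x ∈ (Pr_finite z Y).toFinset}) s (E z) (l := atTop)
    (fun Y => ENNReal.ofReal (2 / (Y : ℝ) ^ 2)) hr
    (fun Y c => Set.Icc ((c.1.1 : ℝ) / c.1.2 - 1 / (Y : ℝ) ^ 2) ((c.1.1 : ℝ) / c.1.2 + 1 / (Y : ℝ) ^ 2))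
    (Eventually.of_forall fun Y c => by
      rw [Real.ediam_Icc]
      apply ENNReal.ofReal_le_ofReal
      apply le_of_eq
      ring) (by
      filter_upwards [eventually_ge_atTop 1] with Y hY x hx
      obtain ⟨w, h1, h2, h3, h4⟩ := exists_conv hx hY
      refine Set.mem_iUnion.2 ⟨⟨(p w, q w), ?_⟩, ?_⟩
      · rw [Set.Finite.mem_toFinset]
        exact ⟨w, h1, h2, h3, rfl⟩
      · have h5 : 1 / (q w : ℝ) ^ 2 ≤ 1 / (Y : ℝ) ^ 2 := by
          have hY0 : (0:ℝ) < Y := by exact_mod_cast hY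
          have : (Y : ℝ) ≤ q w := by exact_mod_cast h2.le
          gcongr
        have h6 := abs_le.1 (h4.trans h5)
        constructor
        · show (p w : ℝ) / q w - 1 / (Y : ℝ) ^ 2 ≤ x
          linarith [h6.1]
        · show x ≤ (p w : ℝ) / q w + 1 / (Y : ℝ) ^ 2
          linarith [h6.2])
  rw [htop, top_le_iff] at hsum
  have hev := eventually_lt_of_lt_liminf (u := fun Y : ℕ => ∑ i : {x // x ∈ (Pr_finite z Y).toFinset},
    Metric.ediam (Set.Icc ((i.1.1 : ℝ) / i.1.2 - 1 / (Y : ℝ) ^ 2)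
      ((i.1.1 : ℝ) / i.1.2 + 1 / (Y : ℝ) ^ 2)) ^ s) (f := atTop)
    (b := ENNReal.ofReal (|C| * 2 ^ s)) (by rw [hsum]; exact ENNReal.ofReal_lt_top)
  filter_upwards [hev, eventually_ge_atTop 1] with Y hY hY1
  have hY0 : (0:ℝ) < Y := by exact_mod_cast hY1
  have h1 : (∑ i : {x // x ∈ (Pr_finite z Y).toFinset},
    Metric.ediam (Set.Icc ((i.1.1 : ℝ) / i.1.2 - 1 / (Y : ℝ) ^ 2)
      ((i.1.1 : ℝ) / i.1.2 + 1 / (Y : ℝ) ^ 2)) ^ s) =
      ENNReal.ofReal ((Pr z Y).ncard * (2 / (Y : ℝ) ^ 2) ^ s) := by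
    have h2 : ∀ i : {x // x ∈ (Pr_finite z Y).toFinset},
        Metric.ediam (Set.Icc ((i.1.1 : ℝ) / i.1.2 - 1 / (Y : ℝ) ^ 2)
          ((i.1.1 : ℝ) / i.1.2 + 1 / (Y : ℝ) ^ 2)) ^ s = ENNReal.ofReal ((2 / (Y : ℝ) ^ 2) ^ s) := by
      intro i
      rw [Real.ediam_Icc, ← ENNReal.ofReal_rpow_of_nonneg (by positivity) hs.le]
      congr 2
      ring
    rw [Finset.sum_congr rfl fun i _ => h2 i, Finset.sum_const, Finset.card_univ,
      Fintype.card_coe, nsmul_eq_mul, ← Set.ncard_eq_toFinset_card _ (Pr_finite z Y),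
      ENNReal.ofReal_mul (by positivity), ENNReal.ofReal_natCast]
  rw [h1] at hY
  have h3 := (ENNReal.ofReal_lt_ofReal_iff_of_nonneg (by positivity)).1 hY
  have h4 : (2 / (Y : ℝ) ^ 2) ^ s = 2 ^ s / (Y : ℝ) ^ (2 * s) := by
    rw [Real.div_rpow (by norm_num) (by positivity), ← Real.rpow_natCast, ← Real.rpow_mul hY0.le]
    norm_num
  rw [h4] at h3
  have h5 : (0:ℝ) < (Y : ℝ) ^ (2 * s) := by positivity
  have h6 : (0:ℝ) < 2 ^ s := by positivity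
  have h7 : |C| * 2 ^ s * (Y : ℝ) ^ (2 * s) < (Pr z Y).ncard * 2 ^ s := by
    rw [mul_div_assoc', lt_div_iff₀ h5] at h3
    exact h3
  have h8 : |C| * (Y : ℝ) ^ (2 * s) < (Pr z Y).ncard := by
    have : (|C| * (Y : ℝ) ^ (2 * s)) * 2 ^ s < (Pr z Y).ncard * 2 ^ s := by
      calc (|C| * (Y : ℝ) ^ (2 * s)) * 2 ^ s = |C| * 2 ^ s * (Y : ℝ) ^ (2 * s) := by ring
        _ < _ := h7
    exact lt_of_mul_lt_mul_right this h6.le
  refine le_trans ?_ h8.le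
  exact mul_le_mul_of_nonneg_right (le_abs_self C) h5.le

end Pool.Agent.W2helper40.DZ
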