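import Pool.Agent.W2helper40.DZ.Count

set_option autoImplicit false

/-!
# Many denominators
-/

namespace Pool.Agent.W2helper40.DZ

open Filter Topology MeasureTheory Measure

/-- the value of the finite continued fraction `[0; a_1, …, a_n]` -/
def cf (w : List ℕ) : ℚ := w.foldr (fun a x => 1 / ((a : ℚ) + x)) 0

theorem cf_nil : cf [] = 0 := rfl
theorem cf_cons (a : ℕ) (w : List ℕ) : cf (a :: w) = 1 / ((a : ℚ) + cf w) := rfl

/-- denominators of fractions with partial quotients at most `z` -/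
def D (z : ℕ) : Set ℕ :=
  {d | 1 ≤ d ∧ ∃ b : ℤ, IsCoprime b (d : ℤ) ∧ ∃ (a₀ : ℤ) (w : List ℕ),
    (∀ a ∈ w, 1 ≤ a ∧ a ≤ z) ∧ (b : ℚ) / d = a₀ + cf (w ++ [1])}

theorem cf_eq {z : ℕ} {w : List ℕ} (h : Ok z w) : cf w = (p w : ℚ) / q w := by
  induction w with
  | nil => simp [cf_nil, p_nil]
  | cons a w ih =>
    have hw : Ok z w := fun b hb => h b (by simp [hb])
    have hq : (0:ℚ) < q w := by exact_mod_cast (bounds hw).2.2.2.2
    have ha : (1:ℚ) ≤ a := by exact_mod_cast (h a (by simp)).1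
    have hp : (0:ℚ) ≤ p w := by positivity
    rw [cf_cons, ih hw, p_cons, q_cons]
    push_cast
    field_simp

theorem cf_last (v : List ℕ) {a : ℕ} (ha : 2 ≤ a) : cf (v ++ [a]) = cf ((v ++ [a - 1]) ++ [1]) := by
  induction v with
  | nil =>
    have h1 : ((a - 1 : ℕ) : ℚ) = a - 1 := by rw [Nat.cast_sub (by omega)]; simp
    have h2 : cf ([] ++ [a]) = 1 / ((a : ℚ) + 0) := rfl
    have h3 : cf (([] ++ [a - 1]) ++ [1]) = 1 / (((a - 1 : ℕ) : ℚ) + 1 / (((1:ℕ):ℚ) + 0)) := rfl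
    rw [h2, h3, h1]
    congr 1
    norm_num
  | cons b v ih =>
    rw [List.cons_append, List.cons_append, List.cons_append, cf_cons, cf_cons, ih]

theorem exists_last {z : ℕ} {w : List ℕ} (h : Ok z w) (hw : w ≠ []) :
    ∃ v, Ok z v ∧ cf w = cf (v ++ [1]) := by
  obtain ⟨v, a, rfl⟩ := List.eq_nil_or_concat' w |>.resolve_left hw
  have ha := h a (by simp)
  have hv : Ok z v := fun b hb => h b (by simp [hb])
  rcases Nat.lt_or_ge a 2 with h2 | h2
  · have : a = 1 := by omega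
    subst this
    exact ⟨v, hv, rfl⟩
  · refine ⟨v ++ [a - 1], ?_, cf_last v h2⟩
    intro b hb
    rw [List.mem_append, List.mem_singleton] at hb
    rcases hb with hb | rfl
    · exact hv b hb
    · omega

theorem mem_D {z : ℕ} {w : List ℕ} (h : Ok z w) (hw : w ≠ []) : q w ∈ D z := by
  obtain ⟨v, hv, hcf⟩ := exists_last h hw
  refine ⟨(bounds h).2.2.2.2, (p w : ℤ), ?_, 0, v, hv, ?_⟩
  · exact Nat.isCoprime_iff_coprime.2 (coprime w)
  · rw [← hcf, cf_eq h]
    simp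

/-! ### Fibonacci numbers -/

theorem pq_ones (k : ℕ) :
    p (List.replicate k 1) = Nat.fib k ∧ q (List.replicate k 1) = Nat.fib (k + 1) := by
  induction k with
  | zero => exact ⟨rfl, rfl⟩
  | succ k ih =>
    rw [List.replicate_succ, p_cons, q_cons, ih.1, ih.2, Nat.fib_add_two (n := k)]
    exact ⟨rfl, by ring⟩

theorem q'_ones (k : ℕ) :
    q' (List.replicate k 1) = Nat.fib k ∧ q' (List.replicate (k + 1) 1) = Nat.fib (k + 1) := by
  induction k with
  | zero => exact ⟨rfl, rfl⟩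
  | succ k ih =>
    refine ⟨ih.2, ?_⟩
    rw [List.replicate_succ, q'_cons, ih.2, List.replicate_succ, p'_cons, ih.1,
      Nat.fib_add_two (n := k)]
    ring

theorem q_ones_append (k : ℕ) (w : List ℕ) :
    q (List.replicate k 1 ++ w) = Nat.fib (k + 1) * q w + Nat.fib k * p w := by
  rw [q_append, (pq_ones k).2, (q'_ones k).1]
  ring

theorem exists_fib {X : ℕ} (hX : 1 ≤ X) :
    ∃ k, X < Nat.fib (k + 1) ∧ Nat.fib (k + 1) ≤ 2 * X ∧ Nat.fib k ≤ X := by
  have hex : ∃ k, X < Nat.fib (k + 1) := ⟨X + 1, by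
    have := Nat.le_fib_add_one (X + 1 + 1)
    omega⟩
  classical
  have hk := Nat.find_spec hex
  set k := Nat.find hex with hkdef
  have hk0 : k ≠ 0 := by
    intro h
    rw [h] at hk
    simp at hk
    omega
  obtain ⟨m, hm⟩ := Nat.exists_eq_succ_of_ne_zero hk0
  have hm' : Nat.fib (m + 1) ≤ X := by
    have := Nat.find_min hex (m := m) (by omega)
    omega
  refine ⟨k, hk, ?_, ?_⟩
  · rw [hm]
    have h1 : Nat.fib (m.succ + 1) = Nat.fib m + Nat.fib (m + 1) := Nat.fib_add_two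
    have h2 := Nat.fib_le_fib_succ (n := m)
    omega
  · rw [hm]
    exact hm'

theorem main {z : ℕ} (hz : 1 ≤ z) {s : ℝ} (hs : 0 < s) (hd : ENNReal.ofReal s < dimH (E z)) :
    ∀ᶠ N : ℕ in atTop, (N : ℝ) ^ s ≤ ((D z ∩ Set.Icc 1 N).ncard : ℝ) := by
  set c : ℕ := 3 * (z + 1) ^ 2 with hc
  have hc1 : 1 ≤ c := by rw [hc]; nlinarith
  obtain ⟨Y₀, hY₀⟩ := eventually_atTop.1 (many hs hd ((4 * (c : ℝ)) ^ s))
  filter_upwards [eventually_ge_atTop (c * (Y₀ + 1) ^ 2)] with N hN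
  set Y := Nat.sqrt (N / c) with hY
  have hYY : Y₀ + 1 ≤ Y := by
    rw [hY, Nat.le_sqrt', Nat.le_div_iff_mul_le hc1, mul_comm]
    exact hN
  have hY1 : 1 ≤ Y := by omega
  have hYN : c * Y ^ 2 ≤ N := by
    have h1 : Y ^ 2 ≤ N / c := Nat.sqrt_le' _
    rw [Nat.le_div_iff_mul_le hc1] at h1
    linarith
  have hNY : N ≤ 4 * c * Y ^ 2 := by
    have h1 : N / c < (Y + 1) ^ 2 := Nat.lt_succ_sqrt' _
    rw [Nat.div_lt_iff_lt_mul hc1] at h1
    have h2 : (Y + 1) ^ 2 ≤ 4 * Y ^ 2 := by nlinarith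
    nlinarith
  set X := (z + 1) * Y with hX
  have hX1 : 1 ≤ X := by rw [hX]; nlinarith
  obtain ⟨k, hk1, hk2, hk3⟩ := exists_fib hX1
  have hle : (Pr z Y).ncard ≤ (D z ∩ Set.Icc 1 N).ncard := by
    apply Set.ncard_le_ncard_of_injOn (fun c : ℕ × ℕ => Nat.fib (k + 1) * c.2 + Nat.fib k * c.1)
    · rintro _ ⟨w, h1, h2, h3, rfl⟩
      have hw : w ≠ [] := by
        rintro rfl
        rw [q_nil] at h2
        omega
      have hOk : Ok z (List.replicate k 1 ++ w) := by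
        intro a ha
        rw [List.mem_append] at ha
        rcases ha with ha | ha
        · rw [List.eq_of_mem_replicate ha]
          exact ⟨le_rfl, hz⟩
        · exact h1 a ha
      have hmem := mem_D hOk (by simp [hw])
      rw [q_ones_append] at hmem
      refine ⟨hmem, hmem.1, ?_⟩
      show Nat.fib (k + 1) * q w + Nat.fib k * p w ≤ N
      have hp : p w ≤ X := (bounds h1).2.2.1.trans h3
      have e1 : Nat.fib (k + 1) * q w ≤ (2 * X) * X := Nat.mul_le_mul hk2 h3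
      have e2 : Nat.fib k * p w ≤ X * X := Nat.mul_le_mul hk3 hp
      calc _ ≤ (2 * X) * X + X * X := Nat.add_le_add e1 e2
        _ = c * Y ^ 2 := by rw [hX, hc]; ring
        _ ≤ N := hYN
    · rintro _ ⟨w, h1, h2, h3, rfl⟩ _ ⟨v, g1, g2, g3, rfl⟩ heq
      have heq' : Nat.fib (k + 1) * q w + Nat.fib k * p w =
        Nat.fib (k + 1) * q v + Nat.fib k * p v := heq
      have hz' : (Nat.fib (k + 1) : ℤ) * q w + Nat.fib k * p w =
        Nat.fib (k + 1) * q v + Nat.fib k * p v := by exact_mod_cast heq'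
      have hcop : IsCoprime (Nat.fib (k + 1) : ℤ) (Nat.fib k : ℤ) :=
        Nat.isCoprime_iff_coprime.2 (Nat.fib_coprime_fib_succ k).symm
      have hdvd : (Nat.fib (k + 1) : ℤ) ∣ (p w : ℤ) - p v := by
        have h4 : (Nat.fib (k + 1) : ℤ) ∣ (Nat.fib k : ℤ) * ((p w : ℤ) - p v) :=
          ⟨(q v : ℤ) - q w, by linarith⟩
        exact hcop.dvd_of_dvd_mul_left h4
      have hpw : p w ≤ X := (bounds h1).2.2.1.trans h3
      have hpv : p v ≤ X := (bounds g1).2.2.1.trans g3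
      have habs : |(p w : ℤ) - p v| < (Nat.fib (k + 1) : ℤ) := by
        rw [abs_lt]
        constructor <;> omega
      have h5 := Int.eq_zero_of_abs_lt_dvd hdvd habs
      have h6 : p w = p v := by omega
      have h7 : q w = q v := by
        rw [h6] at heq'
        have h8 : Nat.fib (k + 1) * q w = Nat.fib (k + 1) * q v := by omega
        exact Nat.eq_of_mul_eq_mul_left (by omega) h8
      rw [h6, h7]
  have hcard : ((Pr z Y).ncard : ℝ) ≤ ((D z ∩ Set.Icc 1 N).ncard : ℝ) := by exact_mod_cast hle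
  refine le_trans ?_ hcard
  refine le_trans ?_ (hY₀ Y (by omega))
  have hY0 : (0:ℝ) ≤ Y := by positivity
  have h1 : (N : ℝ) ≤ (4 * c) * (Y : ℝ) ^ 2 := by exact_mod_cast hNY
  calc (N : ℝ) ^ s ≤ ((4 * c) * (Y : ℝ) ^ 2) ^ s := Real.rpow_le_rpow (by positivity) h1 hs.le
    _ = (4 * (c : ℝ)) ^ s * (Y : ℝ) ^ (2 * s) := by
      rw [Real.mul_rpow (by positivity) (by positivity), ← Real.rpow_natCast, ← Real.rpow_mul hY0]
      rfl

end Pool.Agent.W2helper40.DZ
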