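import Pool.Agent.W2helper40.DZ.Res

set_option autoImplicit false

/-!
# Many denominators in every residue class
-/

namespace Pool.Agent.W2helper40.DZ

open Filter Topology MeasureTheory Measure

variable {m : ℕ}

theorem Ok_ones {z : ℕ} (hz : 1 ≤ z) (n : ℕ) : Ok z (List.replicate n 1) := by
  intro a ha
  rw [List.eq_of_mem_replicate ha]
  exact ⟨le_rfl, hz⟩

theorem act_ones (n : ℕ) : act m (List.replicate n 1) = (A m 1) ^ n := by
  simp [act]

/-- a prefix which leads to the class of `r` -/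
theorem exists_word [NeZero m] {z : ℕ} (hz : 2 ≤ z) (r : ℕ) (w : List ℕ) (hw : Ok z w) :
    ∃ u, Ok z u ∧ (act m u (act m w (0, 1))).2 = (r : ZMod m) := by
  obtain ⟨h, hh, hr⟩ := reach (m := m) hz r
  obtain ⟨u, hu, hu'⟩ := H_mul hh (H_inv (⟨w, hw, rfl⟩ : act m w ∈ H m z))
  refine ⟨u, hu, ?_⟩
  rw [hu', Equiv.Perm.mul_apply]
  have h1 : (act m w)⁻¹ (act m w (0, 1)) = (0, 1) := Equiv.symm_apply_apply _ _
  rw [h1]
  exact hr

theorem exists_word' [NeZero m] {z : ℕ} (hz : 2 ≤ z) (r : ℕ) (c : ZMod m × ZMod m) :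
    ∃ u, Ok z u ∧ ((∃ w, Ok z w ∧ act m w (0, 1) = c) → (act m u c).2 = (r : ZMod m)) := by
  by_cases h : ∃ w, Ok z w ∧ act m w (0, 1) = c
  · obtain ⟨w, hw, rfl⟩ := h
    obtain ⟨u, hu, hu'⟩ := exists_word (m := m) hz r w hw
    exact ⟨u, hu, fun _ => hu'⟩
  · exact ⟨[], by intro a ha; simp at ha, fun h' => absurd h' h⟩

theorem exists_prefix [NeZero m] {z : ℕ} (hz : 2 ≤ z) (r : ℕ) :
    ∃ B : ℕ, 1 ≤ B ∧ ∀ (c : ZMod m × ZMod m) (X : ℕ), 1 ≤ X → ∃ v, Ok z v ∧ X < q v ∧ q v ≤ B * X ∧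
      ((∃ w, Ok z w ∧ act m w (0, 1) = c) → (act m v c).2 = (r : ZMod m)) := by
  classical
  choose U hU hU' using exists_word' (m := m) hz r
  set k := orderOf (A m 1) with hk
  have hk0 : 0 < k := orderOf_pos _
  set C₀ : ℕ := Finset.univ.sup fun c : ZMod m × ZMod m => q (U c) with hC₀
  refine ⟨max (max C₀ 1) (Nat.fib (k + 2)), le_max_of_le_left (le_max_right _ _), fun c X hX => ?_⟩
  set V : ℕ → List ℕ := fun j => List.replicate (k * j) 1 ++ U c with hV
  have hVok : ∀ j, Ok z (V j) := fun j => Ok_append (Ok_ones (by omega) _) (hU c)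
  have hVact : ∀ j, act m (V j) = act m (U c) := by
    intro j
    rw [hV]
    show act m (List.replicate (k * j) 1 ++ U c) = _
    rw [act_append, act_ones, pow_mul, hk, pow_orderOf_eq_one, one_pow, one_mul]
  have hVs : ∀ j, V (j + 1) = List.replicate k 1 ++ V j := by
    intro j
    rw [hV]
    show List.replicate (k * (j + 1)) 1 ++ U c = List.replicate k 1 ++ (List.replicate (k * j) 1 ++ U c)
    rw [← List.append_assoc, ← List.replicate_add]
    congr 2
    ring
  have hex : ∃ j, X < q (V j) := by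
    refine ⟨2 * X, ?_⟩
    have h := bounds (hVok (2 * X))
    have hl : (V (2 * X)).length = k * (2 * X) + (U c).length := by
      rw [hV]
      show (List.replicate (k * (2 * X)) 1 ++ U c).length = _
      rw [List.length_append, List.length_replicate]
    have h4 := h.2.2.2.1
    have h3 := h.2.2.1
    have h5 : 2 * X ≤ k * (2 * X) := Nat.le_mul_of_pos_left _ hk0
    omega
  have hj := Nat.find_spec hex
  set j := Nat.find hex with hjdef
  refine ⟨V j, hVok j, hj, ?_, fun hc => by rw [hVact]; exact hU' c hc⟩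
  rcases Nat.eq_zero_or_pos j with h0 | h0
  · rw [h0]
    have h1 : V 0 = U c := by
      rw [hV]
      show List.replicate (k * 0) 1 ++ U c = U c
      simp
    rw [h1]
    have h2 : q (U c) ≤ C₀ := Finset.le_sup (f := fun c : ZMod m × ZMod m => q (U c)) (Finset.mem_univ c)
    calc q (U c) ≤ C₀ := h2
      _ ≤ max (max C₀ 1) (Nat.fib (k + 2)) := le_max_of_le_left (le_max_left _ _)
      _ ≤ max (max C₀ 1) (Nat.fib (k + 2)) * X := Nat.le_mul_of_pos_right _ hX
  · obtain ⟨i, hi⟩ := Nat.exists_eq_succ_of_ne_zero h0.ne'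
    have hi' : q (V i) ≤ X := by
      have := Nat.find_min hex (m := i) (by omega)
      omega
    rw [hi, Nat.succ_eq_add_one, hVs, q_ones_append]
    have h3 := (bounds (hVok i)).2.2.1
    calc Nat.fib (k + 1) * q (V i) + Nat.fib k * p (V i)
        ≤ Nat.fib (k + 1) * X + Nat.fib k * X :=
          Nat.add_le_add (Nat.mul_le_mul_left _ hi') (Nat.mul_le_mul_left _ (h3.trans hi'))
      _ = Nat.fib (k + 2) * X := by rw [Nat.fib_add_two]; ring
      _ ≤ _ := Nat.mul_le_mul_right _ (le_max_right _ _)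

theorem coprime_q {v : List ℕ} : IsCoprime (q v : ℤ) (q' v : ℤ) := by
  have h := det v
  rcases (abs_eq (zero_le_one (α := ℤ))).1 h with h | h
  · exact ⟨p' v, -p v, by linarith⟩
  · exact ⟨-p' v, p v, by linarith⟩

theorem mainRes {z : ℕ} (hz : 2 ≤ z) (hm : 1 ≤ m) (r : ℕ) {s : ℝ} (hs : 0 < s)
    (hd : ENNReal.ofReal s < dimH (E z)) :
    ∀ᶠ N : ℕ in atTop, (N : ℝ) ^ s ≤ (({d | d ∈ D z ∧ d ≤ N ∧ d ≡ r [MOD m]}.ncard : ℕ) : ℝ) := by
  classical
  have : NeZero m := ⟨by omega⟩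
  obtain ⟨B, hB1, hB⟩ := exists_prefix (m := m) hz r
  set c : ℕ := 2 * B * (z + 1) ^ 2 with hc
  have hc1 : 1 ≤ c := by
    rw [hc]
    have : 1 ≤ (z + 1) ^ 2 := Nat.one_le_pow _ _ (by omega)
    nlinarith
  set M : ℕ := Fintype.card (ZMod m × ZMod m) with hM
  have hM1 : (0:ℝ) < M := by
    have : 0 < M := Fintype.card_pos
    exact_mod_cast this
  obtain ⟨Y₀, hY₀⟩ := eventually_atTop.1 (many hs hd (M * (4 * (c : ℝ)) ^ s))
  filter_upwards [eventually_ge_atTop (c * (Y₀ + 1) ^ 2)] with N hN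
  set Y := Nat.sqrt (N / c) with hY
  have hYY : Y₀ + 1 ≤ Y := by
    rw [hY, Nat.le_sqrt', Nat.le_div_iff_mul_le hc1, mul_comm]
    exact hN
  have hY1 : 1 ≤ Y := by omega
  have hYN : c * Y ^ 2 ≤ N := by
    have h1 : Y ^ 2 ≤ N / c := Nat.sqrt_le' _
    rw [Nat.le_div_iff_mul_le hc1] at h1
    linarith
  have hNY : N ≤ 4 * c * Y ^ 2 := by
    have h1 : N / c < (Y + 1) ^ 2 := Nat.lt_succ_sqrt' _
    rw [Nat.div_lt_iff_lt_mul hc1] at h1
    have h2 : (Y + 1) ^ 2 ≤ 4 * Y ^ 2 := by nlinarith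
    nlinarith
  set X := (z + 1) * Y with hX
  have hX1 : 1 ≤ X := by rw [hX]; nlinarith
  set S : Set ℕ := {d | d ∈ D z ∧ d ≤ N ∧ d ≡ r [MOD m]} with hS
  have hSfin : S.Finite := (Set.finite_Iic N).subset fun d hd => hd.2.1
  set P := (Pr_finite z Y).toFinset with hP
  have hclass : ∀ b : ZMod m × ZMod m,
      (P.filter fun a => ((a.1 : ZMod m), (a.2 : ZMod m)) = b).card ≤ S.ncard := by
    intro b
    obtain ⟨v, hv, hv1, hv2, hv3⟩ := hB b X hX1
    rw [← Set.ncard_coe_finset]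
    refine Set.ncard_le_ncard_of_injOn (fun c : ℕ × ℕ => c.1 * q' v + c.2 * q v) ?_ ?_ hSfin
    · intro a ha
      rw [Finset.mem_coe, Finset.mem_filter, hP, Set.Finite.mem_toFinset] at ha
      obtain ⟨⟨w, h1, h2, h3, rfl⟩, hb⟩ := ha
      have hw : w ≠ [] := by
        rintro rfl
        rw [q_nil] at h2
        omega
      have hmem := mem_D (Ok_append hv h1) (by simp [hw])
      have hcl : act m w (0, 1) = b := by rw [act_pq]; exact hb
      have hr := hv3 ⟨w, h1, hcl⟩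
      rw [← hcl, ← Equiv.Perm.mul_apply, ← act_append, act_pq] at hr
      have hr' : ((q (v ++ w) : ℕ) : ZMod m) = (r : ZMod m) := hr
      rw [ZMod.natCast_eq_natCast_iff, q_append] at hr'
      rw [q_append] at hmem
      refine ⟨hmem, ?_, hr'⟩
      show p w * q' v + q w * q v ≤ N
      have hp : p w ≤ X := (bounds h1).2.2.1.trans h3
      have hq' : q' v ≤ B * X := (bounds hv).1.trans hv2
      calc p w * q' v + q w * q v ≤ X * (B * X) + X * (B * X) :=
            Nat.add_le_add (Nat.mul_le_mul hp hq') (Nat.mul_le_mul h3 hv2)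
        _ = c * Y ^ 2 := by rw [hX, hc]; ring
        _ ≤ N := hYN
    · intro a ha a' ha' heq
      rw [Finset.mem_coe, Finset.mem_filter, hP, Set.Finite.mem_toFinset] at ha ha'
      obtain ⟨⟨w, h1, h2, h3, rfl⟩, -⟩ := ha
      obtain ⟨⟨w', g1, g2, g3, rfl⟩, -⟩ := ha'
      have heq' : p w * q' v + q w * q v = p w' * q' v + q w' * q v := heq
      have hz' : (p w : ℤ) * q' v + q w * q v = p w' * q' v + q w' * q v := by exact_mod_cast heq'
      have hdvd : (q v : ℤ) ∣ (p w : ℤ) - p w' := by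
        have h4 : (q v : ℤ) ∣ (q' v : ℤ) * ((p w : ℤ) - p w') :=
          ⟨(q w' : ℤ) - q w, by linarith⟩
        exact coprime_q.dvd_of_dvd_mul_left h4
      have hpw : p w ≤ X := (bounds h1).2.2.1.trans h3
      have hpv : p w' ≤ X := (bounds g1).2.2.1.trans g3
      have habs : |(p w : ℤ) - p w'| < (q v : ℤ) := by
        rw [abs_lt]
        constructor <;> omega
      have h5 := Int.eq_zero_of_abs_lt_dvd hdvd habs
      have h6 : p w = p w' := by omega
      have h7 : q w = q w' := by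
        rw [h6] at heq'
        have h8 : q w * q v = q w' * q v := by omega
        exact Nat.eq_of_mul_eq_mul_right (by omega) h8
      rw [h6, h7]
  have hcardP : P.card ≤ S.ncard * M := by
    have := Finset.card_le_mul_card_image_of_maps_to (s := P)
      (f := fun a : ℕ × ℕ => ((a.1 : ZMod m), (a.2 : ZMod m))) (t := Finset.univ)
      (fun a _ => Finset.mem_univ _) S.ncard (fun b _ => hclass b)
    rwa [Finset.card_univ, ← hM] at this
  have hcard : ((Pr z Y).ncard : ℝ) ≤ (S.ncard : ℝ) * M := by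
    rw [Set.ncard_eq_toFinset_card _ (Pr_finite z Y)]
    exact_mod_cast hcardP
  have h9 := (hY₀ Y (by omega)).trans hcard
  have hY0 : (0:ℝ) ≤ Y := by positivity
  have h1 : (N : ℝ) ≤ (4 * c) * (Y : ℝ) ^ 2 := by exact_mod_cast hNY
  have h10 : (N : ℝ) ^ s ≤ (4 * (c : ℝ)) ^ s * (Y : ℝ) ^ (2 * s) := by
    calc (N : ℝ) ^ s ≤ ((4 * c) * (Y : ℝ) ^ 2) ^ s := Real.rpow_le_rpow (by positivity) h1 hs.le
      _ = (4 * (c : ℝ)) ^ s * (Y : ℝ) ^ (2 * s) := by
        rw [Real.mul_rpow (by positivity) (by positivity), ← Real.rpow_natCast, ← Real.rpow_mul hY0]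
        rfl
  have h11 : M * (N : ℝ) ^ s ≤ (S.ncard : ℝ) * M := by
    calc M * (N : ℝ) ^ s ≤ M * ((4 * (c : ℝ)) ^ s * (Y : ℝ) ^ (2 * s)) :=
          mul_le_mul_of_nonneg_left h10 hM1.le
      _ = M * (4 * (c : ℝ)) ^ s * (Y : ℝ) ^ (2 * s) := by ring
      _ ≤ _ := h9
  rw [mul_comm] at h11
  exact le_of_mul_le_mul_right h11 hM1

end Pool.Agent.W2helper40.DZ
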