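import Pool.Agent.W2helper40.DZ.Fin

set_option autoImplicit false

/-!
# Denominators in residue classes

The matrices of the words with letters at most `z`, `z ≥ 2`, modulo `m` form a finite group, which
contains the two elementary matrices.
-/

namespace Pool.Agent.W2helper40.DZ

open Filter Topology MeasureTheory Measure

variable {m : ℕ}

/-- the action of one letter -/
def A (m : ℕ) (a : ℕ) : Equiv.Perm (ZMod m × ZMod m) where
  toFun v := (v.2, a * v.2 + v.1)
  invFun v := (v.2 - a * v.1, v.1)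
  left_inv v := by ext <;> simp
  right_inv v := by ext <;> simp

/-- the action of a word -/
def act (m : ℕ) (w : List ℕ) : Equiv.Perm (ZMod m × ZMod m) := (w.map (A m)).prod

theorem act_nil : act m [] = 1 := rfl

theorem act_cons (a : ℕ) (w : List ℕ) : act m (a :: w) = A m a * act m w := by
  simp [act]

theorem act_append (u w : List ℕ) : act m (u ++ w) = act m u * act m w := by
  simp [act]

theorem act_eq (P Q : ZMod m) (w : List ℕ) : act m w (P, Q) = F P Q w := by
  induction w with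
  | nil => rfl
  | cons a w ih => rw [act_cons, Equiv.Perm.mul_apply, ih]; rfl

theorem act_pq (w : List ℕ) : act m w (0, 1) = ((p w : ZMod m), (q w : ZMod m)) := by
  rw [act_eq]
  have h := F_cast (R := ZMod m) 0 1 w
  simp only [Nat.cast_zero, Nat.cast_one] at h
  exact Prod.ext h.1 h.2

/-- the permutations of admissible words -/
def H (m z : ℕ) : Set (Equiv.Perm (ZMod m × ZMod m)) := {g | ∃ w, Ok z w ∧ act m w = g}

theorem Ok_append {z : ℕ} {u w : List ℕ} (hu : Ok z u) (hw : Ok z w) : Ok z (u ++ w) := by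
  intro a ha
  rw [List.mem_append] at ha
  rcases ha with ha | ha
  · exact hu a ha
  · exact hw a ha

theorem H_mul {z : ℕ} {g h : Equiv.Perm (ZMod m × ZMod m)} (hg : g ∈ H m z) (hh : h ∈ H m z) :
    g * h ∈ H m z := by
  obtain ⟨u, hu, rfl⟩ := hg
  obtain ⟨w, hw, rfl⟩ := hh
  exact ⟨u ++ w, Ok_append hu hw, act_append u w⟩

theorem H_one {z : ℕ} : (1 : Equiv.Perm (ZMod m × ZMod m)) ∈ H m z :=
  ⟨[], by intro a ha; simp at ha, act_nil⟩

theorem H_pow {z : ℕ} {g : Equiv.Perm (ZMod m × ZMod m)} (hg : g ∈ H m z) (n : ℕ) :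
    g ^ n ∈ H m z := by
  induction n with
  | zero => rw [pow_zero]; exact H_one
  | succ n ih => rw [pow_succ]; exact H_mul ih hg

theorem H_inv [NeZero m] {z : ℕ} {g : Equiv.Perm (ZMod m × ZMod m)} (hg : g ∈ H m z) :
    g⁻¹ ∈ H m z := by
  have h1 : g⁻¹ = g ^ (orderOf g - 1) := by
    rw [inv_eq_iff_mul_eq_one, ← pow_succ', Nat.sub_add_cancel (orderOf_pos g), pow_orderOf_eq_one]
  rw [h1]
  exact H_pow hg _

theorem A_mem {z a : ℕ} (h1 : 1 ≤ a) (h2 : a ≤ z) : A m a ∈ H m z :=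
  ⟨[a], by intro b hb; rw [List.mem_singleton] at hb; subst hb; exact ⟨h1, h2⟩,
    by rw [act_cons, act_nil, mul_one]⟩

/-- the vector `(1, r)` can be reached -/
theorem reach [NeZero m] {z : ℕ} (hz : 2 ≤ z) (r : ℕ) :
    ∃ h ∈ H m z, (h (0, 1)).2 = (r : ZMod m) := by
  have a1 : A m 1 ∈ H m z := A_mem le_rfl (by omega)
  have a2 : A m 2 ∈ H m z := A_mem (by omega) hz
  set T := (A m 1)⁻¹ * A m 2 with hT
  set S := A m 2 * (A m 1)⁻¹ with hS
  have hTm : T ∈ H m z := H_mul (H_inv a1) a2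
  have hSm : S ∈ H m z := H_mul a2 (H_inv a1)
  have hTv : ∀ v : ZMod m × ZMod m, T v = (v.1 + v.2, v.2) := by
    intro v
    rw [hT, Equiv.Perm.mul_apply, Equiv.Perm.inv_eq_iff_eq]
    apply Prod.ext
    · rfl
    · show (2:ℕ) * v.2 + v.1 = (1:ℕ) * v.2 + (v.1 + v.2)
      push_cast; ring
  have hSv : ∀ v : ZMod m × ZMod m, S v = (v.1, v.2 + v.1) := by
    intro v
    rw [hS, Equiv.Perm.mul_apply]
    have : (A m 1)⁻¹ v = (v.2 - v.1, v.1) := by
      rw [Equiv.Perm.inv_eq_iff_eq]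
      apply Prod.ext
      · rfl
      · show v.2 = (1:ℕ) * v.1 + (v.2 - v.1)
        push_cast; ring
    rw [this]
    apply Prod.ext
    · rfl
    · show (2:ℕ) * v.1 + (v.2 - v.1) = v.2 + v.1
      push_cast; ring
  have hSn : ∀ (n : ℕ) (v : ZMod m × ZMod m), (S ^ n) v = (v.1, v.2 + n * v.1) := by
    intro n
    induction n with
    | zero => intro v; simp
    | succ n ih =>
      intro v
      rw [pow_succ, Equiv.Perm.mul_apply, hSv, ih]
      apply Prod.ext
      · rfl
      · push_cast; ring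
  refine ⟨S ^ r * (S⁻¹ * T), H_mul (H_pow hSm r) (H_mul (H_inv hSm) hTm), ?_⟩
  rw [Equiv.Perm.mul_apply, Equiv.Perm.mul_apply, hTv]
  have h1 : S⁻¹ ((0:ZMod m) + 1, (1:ZMod m)) = (1, 0) := by
    rw [Equiv.Perm.inv_eq_iff_eq, hSv]
    simp
  rw [show ((0, 1) : ZMod m × ZMod m).1 + ((0, 1) : ZMod m × ZMod m).2 = 0 + 1 from rfl] at *
  rw [h1, hSn]
  simp

end Pool.Agent.W2helper40.DZ
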